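import Pool.Agent.W198.TC.Stms2

open Complex Filter Topology Set MeasureTheory

namespace TC

theorem w135_ind_int (a b : ℝ) (ha : 0 ≤ a) (hab : a ≤ b) (hb : b ≤ 1) (g : ℝ → ℝ) :
    ∫ ξ in (0 : ℝ)..1, (Set.Ico a b).indicator g ξ = ∫ ξ in a..b, g ξ := by
  rw [intervalIntegral.integral_of_le zero_le_one, intervalIntegral.integral_of_le hab,
    setIntegral_indicator measurableSet_Ico]
  apply setIntegral_congr_set
  have h1 : (Set.Ioc (0 : ℝ) 1 ∩ Set.Ico a b : Set ℝ) =ᵐ[volume] (Set.Ioc (0 : ℝ) 1 ∩ Set.Ioc a b : Set ℝ) :=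
    (Filter.EventuallyEq.refl _ _).inter Ico_ae_eq_Ioc
  refine h1.trans ?_
  have h2 : (Set.Ioc (0 : ℝ) 1 ∩ Set.Ioc a b : Set ℝ) = Set.Ioc a b := by
    apply Set.inter_eq_right.mpr
    exact Set.Ioc_subset_Ioc ha hb
  rw [h2]

theorem w135_sum_int (c : ℕ → ℝ) (g : ℕ → ℝ → ℝ) (K : ℕ) (hc : StrictMono c) (h0 : c 0 = 0)
    (hK : c K ≤ 1) (hg : ∀ k, Continuous (g k)) :
    ∫ ξ in (0 : ℝ)..1, ∑ k ∈ Finset.range K, (Set.Ico (c k) (c (k + 1))).indicator (g k) ξ =
      ∑ k ∈ Finset.range K, ∫ ξ in (c k)..(c (k + 1)), g k ξ := by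
  rw [intervalIntegral.integral_finset_sum]
  · apply Finset.sum_congr rfl
    intro k hk
    have hk' : k < K := Finset.mem_range.mp hk
    apply w135_ind_int
    · rw [← h0]; exact hc.monotone (Nat.zero_le k)
    · exact hc.monotone (Nat.le_succ k)
    · exact (hc.monotone (Nat.succ_le_of_lt hk')).trans hK
  · intro k _
    have h1 := (hg k).intervalIntegrable (μ := volume) 0 1
    rw [intervalIntegrable_iff] at h1 ⊢
    exact h1.indicator measurableSet_Ico

theorem w135_pw_sq (c : ℕ → ℝ) (f : ℕ → ℝ → ℝ) (hc : StrictMono c) (ξ : ℝ) (K : ℕ) :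
    (pw c f K ξ) ^ 2 = pw c (fun k ξ => (f k ξ) ^ 2) K ξ := by
  unfold pw
  by_cases h : ∃ j ∈ Finset.range K, ξ ∈ Set.Ico (c j) (c (j + 1))
  · obtain ⟨j, hj, hξ⟩ := h
    have key : ∀ (F : ℕ → ℝ → ℝ), ∑ k ∈ Finset.range K,
        (Set.Ico (c k) (c (k + 1))).indicator (F k) ξ = F j ξ := by
      intro F
      rw [Finset.sum_eq_single j]
      · exact Set.indicator_of_mem hξ _
      · intro k _ hkj
        apply Set.indicator_of_notMem
        intro hξ'
        rcases lt_or_gt_of_ne hkj with h | h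
        · have := hc.monotone (Nat.succ_le_of_lt h)
          have h1 := hξ.1
          have h2 := hξ'.2
          simp only [Nat.succ_eq_add_one] at this
          linarith
        · have := hc.monotone (Nat.succ_le_of_lt h)
          have h1 := hξ'.1
          have h2 := hξ.2
          simp only [Nat.succ_eq_add_one] at this
          linarith
      · intro h; exact absurd hj h
    rw [key, key (fun k ξ => (f k ξ) ^ 2)]
  · push Not at h
    rw [Finset.sum_eq_zero, Finset.sum_eq_zero]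
    · simp
    · intro k hk; exact Set.indicator_of_notMem (h k hk) _
    · intro k hk; exact Set.indicator_of_notMem (h k hk) _

theorem w135_mul_pw (c : ℕ → ℝ) (f : ℕ → ℝ → ℝ) (K : ℕ) (ξ : ℝ) :
    ξ * pw c f K ξ = ∑ k ∈ Finset.range K,
      (Set.Ico (c k) (c (k + 1))).indicator (fun ξ => ξ * f k ξ) ξ := by
  unfold pw
  rw [Finset.mul_sum]
  apply Finset.sum_congr rfl
  intro k _
  by_cases h : ξ ∈ Set.Ico (c k) (c (k + 1))
  · rw [Set.indicator_of_mem h, Set.indicator_of_mem h]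
  · rw [Set.indicator_of_notMem h, Set.indicator_of_notMem h, mul_zero]

theorem pwi : S_PWI := by
  intro c f K hc h0 hK hf
  constructor
  · rw [← w135_sum_int c (fun k ξ => ξ * f k ξ) K hc h0 hK
      (fun k => continuous_id.mul (hf k))]
    congr 1
    funext ξ
    exact w135_mul_pw c f K ξ
  · rw [← w135_sum_int c (fun k ξ => ξ * (f k ξ) ^ 2) K hc h0 hK
      (fun k => continuous_id.mul ((hf k).pow 2))]
    congr 1
    funext ξ
    rw [w135_pw_sq c f hc ξ K]
    exact w135_mul_pw c (fun k ξ => (f k ξ) ^ 2) K ξ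

end TC
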